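import Pool.Agent.R525.MS.Exist2

/-!
# MP_83d99e_an: the `p`-Laplace Dirichlet problem has a maximally singular solution

For every `N ≥ 1`, every bounded open `Ω ⊆ ℝ^N` and every `p ∈ (1, ∞)` the solution set
`X(Ω, p)` contains a maximally singular function.  In fact the singular sets of countably many
solutions are always contained in the singular set of one solution.
-/

set_option autoImplicit false

open MeasureTheory Set Filter Topology
open scoped ENNReal NNReal ContDiff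

namespace Pool.Agent.Results.MP_83d99e_an.MaximallySingular

open Pool.Agent.R525.MS

variable {N : ℕ} {Ω : Set (E N)} {p : ℝ}

theorem solves_smul (hp : 1 < p) {u F : E N → ℝ} (h : Solves Ω p u F) {c : ℝ} (hc : 0 < c) :
    Solves Ω p (c • u) (fun x => c ^ (p - 1) * F x) := by
  obtain ⟨g, hW, hs⟩ := h
  refine ⟨c • g, hW.smul hp c, fun φ hφ => ?_⟩
  have h1 : ∀ x, ‖(c • g) x‖ ^ (p - 2) * inner ℝ ((c • g) x) (gradient φ x) =
      c ^ (p - 1) * (‖g x‖ ^ (p - 2) * inner ℝ (g x) (gradient φ x)) := by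
    intro x
    rw [Pi.smul_apply, norm_smul, Real.norm_of_nonneg hc.le,
      Real.mul_rpow hc.le (norm_nonneg _), real_inner_smul_left]
    have : c ^ (p - 1) = c ^ (p - 2) * c := by
      rw [← Real.rpow_add_one hc.ne']; congr 1; ring
    rw [this]; ring
  simp only [h1]
  rw [integral_const_mul, hs φ hφ, ← integral_const_mul]
  congr 1
  ext x; ring

theorem zero_mem_X : (0 : E N → ℝ) ∈ X Ω p := by
  refine ⟨0, MemLp.zero, 0, ⟨MemLp.zero, MemLp.zero, fun _ => 0, fun _ => IsTest.zero Ω,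
    ?_, ?_⟩, ?_⟩
  · simp
  · have : (fun x : E N => gradient (0 : E N → ℝ) x - (0 : E N → E N) x) = 0 := by
      ext1 x; simp [gradient]
    simp only [this]
    simp
  · intro φ _
    simp

/-- A common majorant in `L^{p'}` of suitable positive multiples of countably many functions. -/
theorem exists_majorant {q : ℝ≥0∞} [Fact (1 ≤ q)] {μ : Measure (E N)} {F : ℕ → E N → ℝ}
    (hF : ∀ j, MemLp (F j) q μ) :
    ∃ (G : E N → ℝ) (c : ℕ → ℝ), MemLp G q μ ∧ ∀ j, 0 < c j ∧ ∀ᵐ x ∂μ, c j * F j x ≤ G x := by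
  set f : ℕ → Lp ℝ q μ := fun j => (hF j).toLp (F j) with hf
  set c : ℕ → ℝ := fun j => (1 / 2) ^ j / (1 + ‖f j‖) with hc
  have hcpos : ∀ j, 0 < c j := fun j => by
    have := norm_nonneg (f j)
    simp only [hc]; positivity
  have hn : ∀ j, ‖c j • |f j|‖ ≤ (1 / 2) ^ j := by
    intro j
    rw [norm_smul, norm_abs_eq_norm, Real.norm_of_nonneg (hcpos j).le]
    have h1 := norm_nonneg (f j)
    simp only [hc]
    rw [div_mul_eq_mul_div, div_le_iff₀ (by positivity)]
    have : (0 : ℝ) < (1 / 2) ^ j := by positivity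
    nlinarith
  have hsum : Summable fun j => c j • |f j| :=
    Summable.of_norm_bounded (summable_geometric_of_lt_one (by norm_num) (by norm_num)) hn
  refine ⟨(∑' j, c j • |f j| : Lp ℝ q μ), c, Lp.memLp _, fun j => ⟨hcpos j, ?_⟩⟩
  have hle : c j • |f j| ≤ ∑' j, c j • |f j| := by
    apply hsum.le_tsum j
    intro i _
    rw [← Lp.coeFn_nonneg]
    filter_upwards [Lp.coeFn_smul (c i) |f i|, Lp.coeFn_abs (f i)] with x e1 e2
    rw [e1, Pi.smul_apply, e2, smul_eq_mul]
    exact mul_nonneg (hcpos i).le (abs_nonneg _)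
  have h1 := (Lp.coeFn_le _ _).2 hle
  filter_upwards [h1, Lp.coeFn_smul (c j) |f j|, Lp.coeFn_abs (f j), (hF j).coeFn_toLp]
    with x e1 e2 e3 e4
  rw [e2, Pi.smul_apply, e3, smul_eq_mul] at e1
  have e5 : (f j) x = F j x := e4
  rw [e5] at e1
  exact (mul_le_mul_of_nonneg_left (le_abs_self _) (hcpos j).le).trans e1

theorem countable_family (hN : 0 < N) (hp : 1 < p) (hb : Bornology.IsBounded Ω)
    (u : ℕ → E N → ℝ) (hu : ∀ j, u j ∈ X Ω p) :
    ∃ v ∈ X Ω p, ∀ j, Sing Ω (u j) ⊆ Sing Ω v := by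
  have f2 := fact2 hp
  choose F hF hs using hu
  obtain ⟨G, c, hG, hc⟩ := exists_majorant hF
  obtain ⟨v, hv⟩ := exists_solves hN hp hb hG
  refine ⟨v, ⟨G, hG, hv⟩, fun j => ?_⟩
  obtain ⟨hcj, hle⟩ := hc j
  set l : ℝ := (c j) ^ (1 / (p - 1)) with hl
  have hlpos : 0 < l := by positivity
  have hlp : l ^ (p - 1) = c j := by
    rw [hl, ← Real.rpow_mul hcj.le, one_div, inv_mul_cancel₀ (by linarith : p - 1 ≠ 0),
      Real.rpow_one]
  have h1 := solves_smul hp (hs j) hlpos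
  rw [hlp] at h1
  have h2 : ∀ᵐ x ∂(volume.restrict Ω), (l • u j) x ≤ v x :=
    comparison hN hp hb ((hF j).const_mul (c j)) hG h1 hv hle
  rintro a ⟨haΩ, C, γ, r, hC, hγ, hr, hball, hae⟩
  refine ⟨haΩ, l * C, γ, r, by positivity, hγ, hr, hball, ?_⟩
  have h3 : ∀ᵐ x ∂(volume.restrict (Metric.ball a r)), (l • u j) x ≤ v x :=
    ae_mono (Measure.restrict_mono hball le_rfl) h2
  filter_upwards [h3, hae] with x e1 e2
  calc l * C * ‖x - a‖ ^ (-γ) = l * (C * ‖x - a‖ ^ (-γ)) := by ring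
    _ ≤ l * u j x := mul_le_mul_of_nonneg_left e2 hlpos.le
    _ ≤ v x := e1

/-- For every `N ≥ 1`, every bounded open `Ω ⊆ ℝ^N` and every `1 < p < ∞`, the set `X(Ω, p)`
contains a maximally singular function: a `v ∈ X(Ω, p)` at which the supremum defining the
singular dimension of `X(Ω, p)` is attained. -/
theorem result (N : ℕ) (hN : 1 ≤ N) (Ω : Set (E N)) (_hΩ : IsOpen Ω)
    (hb : Bornology.IsBounded Ω) (p : ℝ) (hp : 1 < p) :
    ∃ v ∈ X Ω p, dimH (Sing Ω v) = ⨆ u ∈ X Ω p, dimH (Sing Ω u) := by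
  set A : Set ℝ≥0∞ := (fun u => dimH (Sing Ω u)) '' X Ω p with hA
  have hAne : A.Nonempty := ⟨_, 0, zero_mem_X, rfl⟩
  obtain ⟨a, -, hlim, haA⟩ := exists_seq_tendsto_sSup hAne (OrderTop.bddAbove A)
  choose u hu hua using haA
  obtain ⟨v, hv, hsub⟩ := countable_family hN hp hb u hu
  refine ⟨v, hv, ?_⟩
  have h1 : ⨆ u ∈ X Ω p, dimH (Sing Ω u) = sSup A := by
    rw [hA, sSup_image]
  rw [h1]
  apply le_antisymm
  · exact le_sSup ⟨v, hv, rfl⟩
  · refine le_of_tendsto' hlim fun j => ?_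
    rw [← hua j]
    exact dimH_mono (hsub j)

end Pool.Agent.Results.MP_83d99e_an.MaximallySingular
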